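import Mathlib

/-!
# The hyperplane integral condition does not characterise the normal density

Let `P` be periodic with period one. On the hyperplane `∑ j, x j = 0` the product of the densities
`C * exp (-x ^ 2 / 2) * P x` at the points `x j - u` is `exp (-n * u ^ 2 / 2)` times a function of
period one in `u`. With `g u` proportional to `exp (-n * u ^ 2 / 2) * sinh (n * u) / u`, the
function `u * g u * exp (-n * u ^ 2 / 2)` is a difference of the form `ψ (u - 1/2) - ψ (u + 1/2)`,
so it is orthogonal to all functions of period one.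
-/

set_option autoImplicit false

open MeasureTheory Filter Topology
open scoped NNReal ContDiff

namespace Pool.Agent.Results.MP_d643ae_pr.NotNormal

/-- probability densities on the line -/
def IsDensity (f : ℝ → ℝ) : Prop := (∀ x, 0 ≤ f x) ∧ Integrable f ∧ ∫ x, f x = 1

/-- the condition `(∗)`, including the existence of the integral -/
def Star (f g : ℝ → ℝ) (n : ℕ) (c : ℝ) : Prop :=
  ∀ x : Fin n → ℝ, ∑ j, x j = 0 →
    Integrable (fun u => (u - c) * g u * ∏ j, f (x j - u)) ∧
    ∫ u, (u - c) * g u * ∏ j, f (x j - u) = 0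

/-- the continuous function `sinh (n * u) / u` -/
noncomputable def S (n : ℕ) : ℝ → ℝ := dslope (fun v => Real.sinh (n * v)) 0

theorem S_mul (n : ℕ) (u : ℝ) : u * S n u = Real.sinh (n * u) := by
  have := sub_smul_dslope (fun v => Real.sinh (n * v)) 0 u
  simpa [S] using this

theorem S_cont (n : ℕ) : Continuous (S n) := by
  have h : ContinuousOn (dslope (fun v => Real.sinh (n * v)) 0) Set.univ := by
    refine (continuousOn_dslope univ_mem).2 ⟨?_, ?_⟩
    · exact (Real.continuous_sinh.comp (continuous_const.mul continuous_id)).continuousOn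
    · exact (Real.differentiable_sinh.comp (differentiable_id.const_mul (n : ℝ))) 0
  exact continuousOn_univ.1 h

theorem S_pos (n : ℕ) (hn : 1 ≤ n) (u : ℝ) : 0 < S n u := by
  have hn' : (0 : ℝ) < n := by exact_mod_cast hn
  by_cases hu : u = 0
  · subst hu
    have : S n 0 = n := by
      unfold S
      rw [dslope_same]
      have h1 : HasDerivAt (fun v : ℝ => (n : ℝ) * v) n 0 := by
        simpa using (hasDerivAt_id (0 : ℝ)).const_mul (n : ℝ)
      have h2 := h1.sinh
      rw [h2.deriv]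
      simp
    rw [this]; exact hn'
  · have h := S_mul n u
    rcases lt_or_gt_of_ne hu with h1 | h1
    · have h2 : Real.sinh (n * u) < 0 := Real.sinh_neg_iff.2 (by nlinarith)
      by_contra hc
      push Not at hc
      nlinarith
    · have h2 : 0 < Real.sinh (n * u) := Real.sinh_pos_iff.2 (by positivity)
      by_contra hc
      push Not at hc
      nlinarith

/-- Gaussian functions with a linear term are integrable -/
theorem int_gauss (a b : ℝ) (ha : 0 < a) : Integrable (fun u : ℝ => Real.exp (-a * u ^ 2 + b * u)) := by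
  have h1 := (integrable_exp_neg_mul_sq ha).comp_sub_right (b / (2 * a))
  have h2 := h1.const_mul (Real.exp (b ^ 2 / (4 * a)))
  refine h2.congr (Eventually.of_forall fun u => ?_)
  simp only
  rw [← Real.exp_add]
  congr 1
  field_simp
  ring

theorem S_le (n : ℕ) : ∃ M : ℝ, ∀ u, S n u ≤ M + (Real.exp (n * u) + Real.exp (-n * u)) := by
  obtain ⟨M, hM⟩ := (isCompact_Icc (a := (-1 : ℝ)) (b := 1)).exists_bound_of_continuousOn
    (S_cont n).continuousOn
  have hM0 : 0 ≤ M := (norm_nonneg _).trans (hM 0 (by norm_num))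
  refine ⟨M, fun u => ?_⟩
  have p1 := Real.exp_pos ((n : ℝ) * u)
  have p2 := Real.exp_pos (-(n : ℝ) * u)
  by_cases hu : u ∈ Set.Icc (-1 : ℝ) 1
  · have := hM u hu
    have := (le_abs_self _).trans this
    linarith
  · have h := S_mul n u
    rw [Real.sinh_eq] at h
    have h2 : S n u ≤ |u * S n u| := by
      have hu1 : 1 ≤ |u| := by
        rw [Set.mem_Icc, ← abs_le] at hu
        exact (not_le.1 hu).le
      rw [abs_mul]
      calc S n u ≤ |S n u| := le_abs_self _
        _ ≤ |u| * |S n u| := le_mul_of_one_le_left (abs_nonneg _) hu1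
    rw [h] at h2
    have h3 : |(Real.exp ((n : ℝ) * u) - Real.exp (-((n : ℝ) * u))) / 2| ≤
        Real.exp (n * u) + Real.exp (-n * u) := by
      rw [show -(n : ℝ) * u = -((n : ℝ) * u) by ring] at p2 ⊢
      rw [abs_le]
      constructor <;> linarith
    linarith

/-- the unnormalised density `g` -/
noncomputable def g0 (n : ℕ) (u : ℝ) : ℝ := Real.exp (-(n / 2 : ℝ) * u ^ 2) * S n u

theorem g0_cont (n : ℕ) : Continuous (g0 n) := by
  unfold g0
  exact (by fun_prop : Continuous (fun u : ℝ => Real.exp (-(n / 2 : ℝ) * u ^ 2))).mul (S_cont n)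

theorem g0_pos (n : ℕ) (hn : 1 ≤ n) (u : ℝ) : 0 < g0 n u := mul_pos (Real.exp_pos _) (S_pos n hn u)

theorem g0_int (n : ℕ) (hn : 1 ≤ n) : Integrable (g0 n) := by
  obtain ⟨M, hM⟩ := S_le n
  have hn' : (0 : ℝ) < n / 2 := by
    have : (1 : ℝ) ≤ n := by exact_mod_cast hn
    linarith
  have h1 := (integrable_exp_neg_mul_sq hn').const_mul M
  have h2 := int_gauss (n / 2 : ℝ) n hn'
  have h3 := int_gauss (n / 2 : ℝ) (-n) hn'
  refine Integrable.mono' ((h1.add h2).add h3) (g0_cont n).aestronglyMeasurable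
    (Eventually.of_forall fun u => ?_)
  rw [Real.norm_eq_abs, abs_of_pos (g0_pos n hn u)]
  simp only [Pi.add_apply, g0]
  rw [Real.exp_add, Real.exp_add]
  have := mul_le_mul_of_nonneg_left (hM u) (Real.exp_pos (-(n / 2 : ℝ) * u ^ 2)).le
  linarith

/-- the unnormalised density `f` -/
noncomputable def f0 (x : ℝ) : ℝ := Real.exp (-(1 / 2 : ℝ) * x ^ 2) * (1 + Real.cos (2 * Real.pi * x) / 2)

theorem f0_smooth : ContDiff ℝ ∞ f0 := by
  unfold f0
  fun_prop

theorem P_bound (x : ℝ) : 1 / 2 ≤ 1 + Real.cos (2 * Real.pi * x) / 2 ∧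
    1 + Real.cos (2 * Real.pi * x) / 2 ≤ 3 / 2 := by
  have h1 := Real.neg_one_le_cos (2 * Real.pi * x)
  have h2 := Real.cos_le_one (2 * Real.pi * x)
  constructor <;> linarith

theorem f0_pos (x : ℝ) : 0 < f0 x := mul_pos (Real.exp_pos _) (by linarith [(P_bound x).1])

theorem f0_int : Integrable f0 := by
  have h1 := (integrable_exp_neg_mul_sq (b := 1 / 2) (by norm_num)).const_mul (3 / 2)
  refine Integrable.mono' h1 f0_smooth.continuous.aestronglyMeasurable
    (Eventually.of_forall fun x => ?_)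
  rw [Real.norm_eq_abs, abs_of_pos (f0_pos x)]
  unfold f0
  have := mul_le_mul_of_nonneg_left (P_bound x).2 (Real.exp_pos (-(1 / 2 : ℝ) * x ^ 2)).le
  linarith

/-- orthogonality to functions of period one -/
theorem orth (n : ℕ) (hn : 1 ≤ n) (R : ℝ → ℝ) (hR : Continuous R) (hb : ∃ B, ∀ u, |R u| ≤ B)
    (hper : ∀ u, R (u + 1) = R u) :
    Integrable (fun u => Real.exp (-(n : ℝ) * u ^ 2) * Real.sinh (n * u) * R u) ∧
    ∫ u, Real.exp (-(n : ℝ) * u ^ 2) * Real.sinh (n * u) * R u = 0 := by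
  obtain ⟨B, hB⟩ := hb
  have hn' : (0 : ℝ) < n := by exact_mod_cast hn
  set ψ : ℝ → ℝ := fun u => Real.exp (-(n : ℝ) * u ^ 2) with hψ
  have hψi : Integrable ψ := integrable_exp_neg_mul_sq hn'
  have hψR : ∀ s : ℝ, Integrable (fun u => ψ u * R (u + s)) := by
    intro s
    refine Integrable.mul_bdd (c := B) hψi ?_ ?_
    · exact (hR.comp (continuous_id.add continuous_const)).aestronglyMeasurable
    · exact Eventually.of_forall fun u => hB _
  have e : ∀ u, Real.exp (-(n : ℝ) * u ^ 2) * Real.sinh (n * u) * R u =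
      Real.exp (n / 4 : ℝ) / 2 * (ψ (u - 1 / 2) * R (u - 1 / 2 + 1 / 2) -
        ψ (u + 1 / 2) * R (u + 1 / 2 + -(1 / 2))) := by
    intro u
    rw [sub_add_cancel, add_neg_cancel_right, ← sub_mul]
    simp only [hψ]
    have e1 : Real.exp (-(n : ℝ) * (u - 1 / 2) ^ 2) =
        Real.exp (-(n : ℝ) * u ^ 2) * Real.exp (n * u) * Real.exp (-(n / 4) : ℝ) := by
      rw [← Real.exp_add, ← Real.exp_add]; congr 1; ring
    have e2 : Real.exp (-(n : ℝ) * (u + 1 / 2) ^ 2) =
        Real.exp (-(n : ℝ) * u ^ 2) * Real.exp (-(n * u)) * Real.exp (-(n / 4) : ℝ) := by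
      rw [← Real.exp_add, ← Real.exp_add]; congr 1; ring
    have e3 : Real.exp (n / 4 : ℝ) * Real.exp (-(n / 4) : ℝ) = 1 := by
      rw [← Real.exp_add, add_neg_cancel, Real.exp_zero]
    rw [e1, e2, Real.sinh_eq]
    linear_combination (-(Real.exp (-(n : ℝ) * u ^ 2) * (Real.exp (n * u) - Real.exp (-(n * u))) *
      R u) / 2) * e3
  have i1 : Integrable (fun u => ψ (u - 1 / 2) * R (u - 1 / 2 + 1 / 2)) :=
    (hψR (1 / 2)).comp_sub_right (1 / 2)
  have i2 : Integrable (fun u => ψ (u + 1 / 2) * R (u + 1 / 2 + -(1 / 2))) :=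
    (hψR (-(1 / 2))).comp_add_right (1 / 2)
  have efun : (fun u => Real.exp (-(n : ℝ) * u ^ 2) * Real.sinh (n * u) * R u) =
      fun u => Real.exp (n / 4 : ℝ) / 2 * (ψ (u - 1 / 2) * R (u - 1 / 2 + 1 / 2) -
        ψ (u + 1 / 2) * R (u + 1 / 2 + -(1 / 2))) := funext e
  rw [efun]
  refine ⟨(i1.sub i2).const_mul _, ?_⟩
  rw [integral_const_mul, integral_sub i1 i2,
    integral_sub_right_eq_self (fun u => ψ u * R (u + 1 / 2)) (1 / 2),
    integral_add_right_eq_self (fun u => ψ u * R (u + -(1 / 2))) (1 / 2)]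
  have : ∀ u, R (u + 1 / 2) = R (u + -(1 / 2)) := by
    intro u
    rw [← hper (u + -(1 / 2))]
    congr 1
    ring
  simp_rw [this]
  rw [sub_self, mul_zero]

theorem prod_f0 (n : ℕ) (x : Fin n → ℝ) (hx : ∑ j, x j = 0) (v : ℝ) :
    ∏ j, f0 (x j - v) = Real.exp (-(1 / 2 : ℝ) * ∑ j, (x j) ^ 2) *
      Real.exp (-(n / 2 : ℝ) * v ^ 2) * ∏ j, (1 + Real.cos (2 * Real.pi * (x j - v)) / 2) := by
  unfold f0
  rw [Finset.prod_mul_distrib, ← Real.exp_sum, ← Real.exp_add]
  congr 2
  rw [← Finset.mul_sum]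
  have : ∑ j, (x j - v) ^ 2 = ∑ j, (x j) ^ 2 + n * v ^ 2 := by
    have e : ∀ j, (x j - v) ^ 2 = (x j) ^ 2 + (-2 * v) * x j + v ^ 2 := fun j => by ring
    simp_rw [e]
    rw [Finset.sum_add_distrib, Finset.sum_add_distrib, ← Finset.mul_sum, hx]
    simp
  rw [this]
  ring

theorem star (n : ℕ) (hn : 1 ≤ n) (c C K : ℝ) :
    Star (fun x => C * f0 (x + c)) (fun u => K * g0 n (u - c)) n c := by
  intro x hx
  set R : ℝ → ℝ := fun v => ∏ j, (1 + Real.cos (2 * Real.pi * (x j - v)) / 2) with hR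
  have hRc : Continuous R := by
    rw [hR]; fun_prop
  have hRb : ∃ B, ∀ u, |R u| ≤ B := by
    refine ⟨(3 / 2) ^ n, fun u => ?_⟩
    simp only [hR]
    rw [Finset.abs_prod]
    calc ∏ j, |1 + Real.cos (2 * Real.pi * (x j - u)) / 2| ≤ ∏ _j : Fin n, (3 / 2 : ℝ) := by
          refine Finset.prod_le_prod (fun _ _ => abs_nonneg _) fun j _ => ?_
          have := P_bound (x j - u)
          rw [abs_le]
          constructor <;> linarith [this.1, this.2]
      _ = (3 / 2) ^ n := by rw [Finset.prod_const, Finset.card_univ, Fintype.card_fin]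
  have hRp : ∀ u, R (u + 1) = R u := by
    intro u
    simp only [hR]
    refine Finset.prod_congr rfl fun j _ => ?_
    congr 2
    rw [show 2 * Real.pi * (x j - (u + 1)) = 2 * Real.pi * (x j - u) - 2 * Real.pi by ring,
      Real.cos_sub_two_pi]
  obtain ⟨h1, h2⟩ := orth n hn R hRc hRb hRp
  set D : ℝ := K * C ^ n * Real.exp (-(1 / 2 : ℝ) * ∑ j, (x j) ^ 2) with hD
  have e : (fun u => (u - c) * (K * g0 n (u - c)) * ∏ j, C * f0 (x j - u + c)) =
      fun u => D * (Real.exp (-(n : ℝ) * (u - c) ^ 2) * Real.sinh (n * (u - c)) * R (u - c)) := by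
    funext u
    have e1 : ∀ j, x j - u + c = x j - (u - c) := fun j => by ring
    simp_rw [e1]
    rw [Finset.prod_mul_distrib, prod_f0 n x hx, Finset.prod_const, Finset.card_univ,
      Fintype.card_fin, ← S_mul]
    have e2 : Real.exp (-(n : ℝ) * (u - c) ^ 2) =
        Real.exp (-(n / 2 : ℝ) * (u - c) ^ 2) * Real.exp (-(n / 2 : ℝ) * (u - c) ^ 2) := by
      rw [← Real.exp_add]; congr 1; ring
    rw [e2]
    simp only [g0, hD, hR]
    ring
  have e' : (fun u => (u - c) * (fun u => K * g0 n (u - c)) u *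
      ∏ j, (fun x => C * f0 (x + c)) (x j - u)) =
      fun u => D * (Real.exp (-(n : ℝ) * (u - c) ^ 2) * Real.sinh (n * (u - c)) * R (u - c)) := e
  rw [e']
  refine ⟨(h1.comp_sub_right c).const_mul D, ?_⟩
  rw [integral_const_mul, integral_sub_right_eq_self
    (fun v => Real.exp (-(n : ℝ) * v ^ 2) * Real.sinh (n * v) * R v) c, h2, mul_zero]

/-- `f0` is not proportional to a normal density -/
theorem not_normal (c C : ℝ) (hC : 0 < C) (a : ℝ) (v : ℝ≥0)
    (h : ∀ x, C * f0 (x + c) = ProbabilityTheory.gaussianPDFReal a v x) : False := by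
  have hv : v ≠ 0 := by
    rintro rfl
    have := h 0
    rw [ProbabilityTheory.gaussianPDFReal_zero_var] at this
    have h2 := mul_pos hC (f0_pos (0 + c))
    rw [this] at h2
    simp at h2
  have hv' : (0 : ℝ) < v := by positivity
  set K : ℝ := (Real.sqrt (2 * Real.pi * v))⁻¹ with hK
  have hKpos : 0 < K := by positivity
  have key : ∀ y : ℝ, Real.log C - 1 / 2 * y ^ 2 +
      Real.log (1 + Real.cos (2 * Real.pi * y) / 2) =
      Real.log K - (y - c - a) ^ 2 / (2 * v) := by
    intro y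
    have h1 := h (y - c)
    rw [sub_add_cancel, ProbabilityTheory.gaussianPDFReal] at h1
    have h2 := congrArg Real.log h1
    have hP : 0 < 1 + Real.cos (2 * Real.pi * y) / 2 := by linarith [(P_bound y).1]
    unfold f0 at h2
    rw [Real.log_mul hC.ne' (mul_pos (Real.exp_pos _) hP).ne', Real.log_mul (Real.exp_pos _).ne'
      hP.ne', Real.log_exp, Real.log_mul hKpos.ne' (Real.exp_pos _).ne', Real.log_exp] at h2
    rw [neg_div] at h2
    linarith
  have k0 := key 0
  have k1 := key 1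
  have k2 := key 2
  have k3 := key (1 / 2)
  rw [show 2 * Real.pi * (0 : ℝ) = 0 by ring, Real.cos_zero] at k0
  rw [show 2 * Real.pi * (1 : ℝ) = 2 * Real.pi by ring, Real.cos_two_pi] at k1
  rw [show 2 * Real.pi * (2 : ℝ) = 2 * Real.pi + 2 * Real.pi by ring, Real.cos_add_two_pi,
    Real.cos_two_pi] at k2
  rw [show 2 * Real.pi * (1 / 2 : ℝ) = Real.pi by ring, Real.cos_pi] at k3
  set s : ℝ := 1 / (2 * v) with hs
  have es : ∀ z : ℝ, z / (2 * v) = z * s := fun z => by rw [hs]; ring
  rw [es] at k0 k1 k2 k3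
  have a1 : s = 1 / 2 := by nlinarith
  have a2 : (c + a) * s = 0 := by nlinarith
  have a3 : Real.log (1 + 1 / 2) = Real.log (1 + -1 / 2) := by nlinarith
  have a4 : Real.log (1 + -1 / 2) < Real.log (1 + 1 / 2 : ℝ) :=
    Real.log_lt_log (by norm_num) (by norm_num)
  linarith

/-- for every `n ≥ 1` and every `c` there are densities `f` (positive and smooth) and `g` (positive
and continuous) that satisfy the condition `(∗)`, but `f` is not a normal density -/
theorem result (n : ℕ) (hn : 1 ≤ n) (c : ℝ) : ∃ f g : ℝ → ℝ, IsDensity f ∧ IsDensity g ∧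
    (∀ x, 0 < f x) ∧ (∀ x, 0 < g x) ∧ ContDiff ℝ ∞ f ∧ Continuous g ∧ Star f g n c ∧
    ∀ (a : ℝ) (v : ℝ≥0), ¬ f =ᵐ[volume] ProbabilityTheory.gaussianPDFReal a v := by
  set C : ℝ := (∫ x, f0 x)⁻¹ with hC
  set K : ℝ := (∫ x, g0 n x)⁻¹ with hK
  have hCp : 0 < ∫ x, f0 x := by
    refine (integral_pos_iff_support_of_nonneg (fun x => (f0_pos x).le) f0_int).2 ?_
    have : Function.support f0 = Set.univ := by
      ext x; simp [(f0_pos x).ne']
    rw [this]; simp
  have hKp : 0 < ∫ x, g0 n x := by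
    refine (integral_pos_iff_support_of_nonneg (fun x => (g0_pos n hn x).le) (g0_int n hn)).2 ?_
    have : Function.support (g0 n) = Set.univ := by
      ext x; simp [(g0_pos n hn x).ne']
    rw [this]; simp
  have hC0 : 0 < C := inv_pos.2 hCp
  have hK0 : 0 < K := inv_pos.2 hKp
  have hsm : ContDiff ℝ ∞ (fun x => C * f0 (x + c)) :=
    contDiff_const.mul (f0_smooth.comp (contDiff_id.add contDiff_const))
  refine ⟨fun x => C * f0 (x + c), fun u => K * g0 n (u - c), ⟨?_, ?_, ?_⟩, ⟨?_, ?_, ?_⟩,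
    fun x => mul_pos hC0 (f0_pos _), fun x => mul_pos hK0 (g0_pos n hn _), hsm, ?_,
    star n hn c C K, ?_⟩
  · exact fun x => (mul_pos hC0 (f0_pos _)).le
  · exact (f0_int.comp_add_right c).const_mul C
  · rw [integral_const_mul, integral_add_right_eq_self (fun x => f0 x) c, hC,
      inv_mul_cancel₀ hCp.ne']
  · exact fun x => (mul_pos hK0 (g0_pos n hn _)).le
  · exact ((g0_int n hn).comp_sub_right c).const_mul K
  · rw [integral_const_mul, integral_sub_right_eq_self (fun x => g0 n x) c, hK,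
      inv_mul_cancel₀ hKp.ne']
  · exact continuous_const.mul ((g0_cont n).comp (continuous_id.sub continuous_const))
  · intro a v hae
    have hcont : Continuous (ProbabilityTheory.gaussianPDFReal a v) := by
      unfold ProbabilityTheory.gaussianPDFReal
      fun_prop
    have heq := (hsm.continuous.ae_eq_iff_eq (μ := volume) hcont).1 hae
    exact not_normal c C hC0 a v fun x => congrFun heq x

end Pool.Agent.Results.MP_d643ae_pr.NotNormal
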